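import Pool.Agent.H28.Ex7a

set_option autoImplicit false

namespace Pool.Agent.Results.MP_e1005d_co.ModularNotSupersolvable

open Pool.Agent.H28.TangDefs

/-- There is a tangential `k`-block over some `GF(q)` with a modular copoint that is not
supersolvable. -/
theorem result : ∃ (F : Type) (_ : Field F) (_ : Fintype F) (k : ℕ) (m : ℕ) (M : Matroid (Fin m)),
    1 ≤ k ∧ Representable F M ∧ IsSimple M ∧ ¬ CritLE (Fintype.card F) k M ∧
    (∀ N : Matroid (Fin m), N.IsStrictMinor M → N.Loopless → CritLE (Fintype.card F) k N) ∧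
    (∃ H, IsModularHyperplane M H) ∧ ¬ Supersolvable M := by
  refine ⟨ZMod 7, inferInstance, inferInstance, 1, 19, Pool.Agent.H28.Ex7a.M, le_rfl,
    ⟨4, _, Pool.Agent.H28.Crit.represents_of_rep Pool.Agent.H28.Ex7a.rep⟩,
    Pool.Agent.H28.Ex7a.simple, Pool.Agent.H28.Ex7a.block, fun N hN hl => ?_,
    Pool.Agent.H28.Ex7a.modular, Pool.Agent.H28.Ex7a.not_supersolvable⟩
  exact Pool.Agent.H28.Crit.critLE_of_tangents' Pool.Agent.H28.Ex7a.rep Pool.Agent.H28.Ex7a.simple 1
    Pool.Agent.H28.Ex7a.tangents hN fun e he => (N.isNonloop_of_loopless he).indep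

end Pool.Agent.Results.MP_e1005d_co.ModularNotSupersolvable
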